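import Pool.Agent.J4H16.PK.Up

/-!
Project PK (helper99): job LOW, the lower bound for the packing measure (Vitali covering).
-/

set_option autoImplicit false

namespace Pool.Agent.J4H16.PK

open MeasureTheory Filter Topology Pool.Agent.Y41.EV Pool.Agent.J4H99.PK
open scoped ENNReal

/-- the good times of `LI` -/
def Good (f : C(unitInterval, ℂ)) (T C : ℝ) (t : unitInterval) : Prop := ∀ η : ℝ, 0 < η →
  ∃ r : ℝ, 0 < r ∧ r < η ∧
    T * (volume {u : unitInterval | dist (f u) (f t) ≤ 5 * r}).toReal ≤ C * psi r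

theorem low_pre {f : C(unitInterval, ℂ)} {T C : ℝ} (hT : 0 < T) (hC : 0 < C)
    (E : Set unitInterval) (hE : ∀ t ∈ E, Good f T C t) :
    ENNReal.ofReal (T / C) * volume E ≤ pre gps (f '' E) := by
  unfold pre
  refine le_iInf₂ fun δ hδ => ?_
  have hex : ∀ t : unitInterval, ∃ r : ℝ, t ∈ E → 0 < r ∧ r < δ ∧
      T * (volume {u : unitInterval | dist (f u) (f t) ≤ 5 * r}).toReal ≤ C * psi r := by
    intro t
    by_cases ht : t ∈ E
    · obtain ⟨r, h⟩ := hE t ht δ hδ
      exact ⟨r, fun _ => h⟩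
    · exact ⟨0, fun h => absurd h ht⟩
  choose r hr using hex
  obtain ⟨u, hu1, hu2, hu3⟩ := Vitali.exists_disjoint_subfamily_covering_enlargement_closedBall
    E (fun t => f t) r δ (fun t ht => (hr t ht).2.1.le) 5 (by norm_num)
  have hcount : u.Countable := by
    refine hu2.countable_of_nonempty_interior fun t ht => ?_
    exact ⟨f t, Metric.ball_subset_interior_closedBall
      (Metric.mem_ball_self (hr t (hu1 ht)).1)⟩
  have hcov : E ⊆ ⋃ b ∈ u, {v : unitInterval | dist (f v) (f b) ≤ 5 * r b} := by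
    intro t ht
    obtain ⟨b, hb, hb2⟩ := hu3 t ht
    rw [Set.mem_iUnion₂]
    exact ⟨b, hb, hb2 (Metric.mem_closedBall_self (hr t ht).1.le)⟩
  have h1 : volume E ≤ ∑' b : u, volume {v : unitInterval | dist (f v) (f b) ≤ 5 * r b} :=
    (measure_mono hcov).trans (measure_biUnion_le _ hcount _)
  have h2 : ENNReal.ofReal (T / C) * volume E ≤ ∑' b : u, gps (r b) := by
    refine (mul_le_mul_right h1 _).trans ?_
    rw [← ENNReal.tsum_mul_left]
    refine ENNReal.tsum_le_tsum fun b => ?_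
    have h3 := (hr b (hu1 b.2)).2.2
    have h4 : (volume {v : unitInterval | dist (f v) (f b) ≤ 5 * r b}) ≠ ⊤ := measure_ne_top _ _
    rw [← ENNReal.ofReal_toReal h4, ← ENNReal.ofReal_mul (by positivity)]
    refine ENNReal.ofReal_le_ofReal ?_
    rw [div_mul_eq_mul_div, div_le_iff₀ hC]
    linarith
  refine h2.trans ?_
  rw [ENNReal.tsum_eq_iSup_sum]
  refine iSup_le fun F => ?_
  obtain ⟨e⟩ : Nonempty (Fin F.card ≃ F) := ⟨F.equivFin.symm⟩
  refine le_iSup_of_le F.card (le_iSup_of_le (fun i => f (e i).1.1)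
    (le_iSup_of_le (fun i => r (e i).1.1) (le_iSup_of_le ⟨?_, ?_⟩ ?_)))
  · intro i
    have h5 := hr (e i).1.1 (hu1 (e i).1.2)
    exact ⟨⟨(e i).1.1, hu1 (e i).1.2, rfl⟩, h5.1, h5.2.1⟩
  · intro i j hij
    refine hu2 (e i).1.2 (e j).1.2 fun h => hij ?_
    exact e.injective (Subtype.ext (Subtype.ext h))
  · rw [← Finset.sum_coe_sort F, ← Equiv.sum_comp e]

/-- JOB LOW. -/
theorem t_LOW : S_LOW := by
  intro f T C hT hC hLI S
  unfold pack
  refine le_iInf₂ fun A hA => ?_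
  obtain ⟨G, hG⟩ : ∃ G : Set unitInterval, G = {t | Good f T C t} := ⟨_, rfl⟩
  have hG0 : volume Gᶜ = 0 := by
    rw [hG]
    exact hLI
  have h1 : volume S ≤ ∑' n, volume (S ∩ G ∩ f ⁻¹' (A n)) := by
    have h2 : S ⊆ (⋃ n, S ∩ G ∩ f ⁻¹' (A n)) ∪ Gᶜ := by
      intro t ht
      by_cases hg : t ∈ G
      · left
        have h3 := hA ⟨t, ht, rfl⟩
        rw [Set.mem_iUnion] at h3 ⊢
        obtain ⟨n, hn⟩ := h3
        exact ⟨n, ⟨ht, hg⟩, hn⟩
      · exact Or.inr hg
    refine (measure_mono h2).trans ((measure_union_le _ _).trans ?_)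
    rw [hG0, add_zero]
    exact measure_iUnion_le _
  refine (mul_le_mul_right h1 _).trans ?_
  rw [← ENNReal.tsum_mul_left]
  refine ENNReal.tsum_le_tsum fun n => ?_
  have h4 : ENNReal.ofReal (T / C) * volume (S ∩ G ∩ f ⁻¹' (A n)) ≤
      pre gps (f '' (S ∩ G ∩ f ⁻¹' (A n))) := by
    refine low_pre hT hC _ fun t ht => ?_
    have := ht.1.2
    rw [hG] at this
    exact this
  refine h4.trans (pre_mono gps ?_)
  rintro _ ⟨t, ht, rfl⟩
  exact ht.2

end Pool.Agent.J4H16.PK
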