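import Pool.Agent.J4H99.PK.Stm

/-!
Project PK (helper99): job UP, the upper bound for the packing measure.
-/

set_option autoImplicit false

namespace Pool.Agent.J4H16.PK

open MeasureTheory Filter Topology Pool.Agent.Y41.EV Pool.Agent.J4H99.PK
open scoped ENNReal

theorem pre_empty (g : ℝ → ℝ≥0∞) : pre g ∅ = 0 := by
  unfold pre
  refine le_antisymm ?_ bot_le
  refine iInf₂_le_of_le 1 one_pos ?_
  refine iSup_le fun n => iSup_le fun x => iSup_le fun r => iSup_le fun h => ?_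
  rcases n with _ | n
  · simp
  · exact absurd (h.1 0).1 (Set.notMem_empty _)

theorem pre_mono (g : ℝ → ℝ≥0∞) {E F : Set ℂ} (h : E ⊆ F) : pre g E ≤ pre g F := by
  unfold pre
  refine iInf_mono fun δ => iInf_mono fun hδ => iSup_mono fun n => iSup_mono fun x =>
    iSup_mono fun r => iSup_le fun hp => ?_
  exact le_iSup_of_le ⟨fun i => ⟨h (hp.1 i).1, (hp.1 i).2⟩, hp.2⟩ le_rfl

/-- the packing measure as an outer measure -/
noncomputable def PO (g : ℝ → ℝ≥0∞) : OuterMeasure ℂ :=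
  OuterMeasure.ofFunction (pre g) (pre_empty g)

theorem PO_apply (g : ℝ → ℝ≥0∞) (E : Set ℂ) : PO g E = pack g E := rfl

theorem pack_le_pre (g : ℝ → ℝ≥0∞) (E : Set ℂ) : pack g E ≤ pre g E :=
  OuterMeasure.ofFunction_le (m_empty := pre_empty g) E

theorem pack_mono (g : ℝ → ℝ≥0∞) {E F : Set ℂ} (h : E ⊆ F) : pack g E ≤ pack g F :=
  (PO g).mono h

/-- If the premeasure of the images of the intervals is at most `K` times the length, then the
packing measure of the images of all sets is at most `K` times the outer measure. -/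
theorem up_red (g : ℝ → ℝ≥0∞) (f : C(unitInterval, ℂ)) (K : ℝ≥0∞) (hK0 : K ≠ 0) (hK : K ≠ ⊤)
    (h : ∀ s t : unitInterval, s ≤ t →
      pre g (f '' Set.Icc s t) ≤ K * ENNReal.ofReal ((t : ℝ) - s)) (S : Set unitInterval) :
    pack g (f '' S) ≤ K * volume S := by
  obtain ⟨μ, hμ⟩ : ∃ μ : OuterMeasure ℝ, μ = OuterMeasure.map (Subtype.val : unitInterval → ℝ)
    (OuterMeasure.comap f (PO g)) := ⟨_, rfl⟩
  have hμ1 : ∀ E : Set ℝ, μ E = pack g (f '' (Subtype.val ⁻¹' E)) := fun E => by rw [hμ]; rfl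
  have key : μ ≤ K • StieltjesFunction.id.outer := by
    unfold StieltjesFunction.outer
    rw [OuterMeasure.smul_ofFunction hK, OuterMeasure.le_ofFunction]
    intro s
    rw [Pi.smul_apply, smul_eq_mul, StieltjesFunction.length_eq,
      ENNReal.mul_iInf_of_ne hK0 hK]
    refine le_iInf fun a => ?_
    rw [ENNReal.mul_iInf_of_ne hK0 hK]
    refine le_iInf fun b => ?_
    rw [ENNReal.mul_iInf_of_ne hK0 hK]
    refine le_iInf fun hs => ?_
    have hs' : s ⊆ Set.Ioc a b := by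
      intro x hx
      refine hs ⟨hx, ?_⟩
      simp [botSet]
    have hs2 : μ s ≤ μ (Set.Ioc a b) := μ.mono hs'
    refine hs2.trans ?_
    rw [hμ1]
    refine (pack_le_pre _ _).trans ?_
    rcases le_or_gt b a with hab | hab
    · rw [Set.Ioc_eq_empty (not_lt.2 hab), Set.preimage_empty, Set.image_empty, pre_empty]
      exact bot_le
    obtain ⟨p, hp⟩ : ∃ p, p = Set.projIcc (0:ℝ) 1 zero_le_one a := ⟨_, rfl⟩
    obtain ⟨q, hq⟩ : ∃ q, q = Set.projIcc (0:ℝ) 1 zero_le_one b := ⟨_, rfl⟩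
    have hp1 : (p : ℝ) = max 0 (min 1 a) := by rw [hp, Set.coe_projIcc]
    have hq1 : (q : ℝ) = max 0 (min 1 b) := by rw [hq, Set.coe_projIcc]
    have hpq : p ≤ q := by
      rw [hp, hq]
      exact Set.monotone_projIcc _ hab.le
    have hsub : f '' (Subtype.val ⁻¹' (Set.Ioc a b)) ⊆ f '' Set.Icc p q := by
      refine Set.image_mono fun u hu => ⟨?_, ?_⟩
      · show (p : ℝ) ≤ u
        rw [hp1]
        exact max_le u.2.1 ((min_le_right _ _).trans hu.1.le)
      · show (u : ℝ) ≤ q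
        rw [hq1]
        exact le_max_of_le_right (le_min u.2.2 hu.2)
    refine (pre_mono g hsub).trans ((h p q hpq).trans ?_)
    refine mul_le_mul_right (ENNReal.ofReal_le_ofReal ?_) K
    show (q : ℝ) - p ≤ b - a
    rw [hp1, hq1]
    simp only [max_def, min_def]
    split_ifs <;> linarith
  have h1 := key (Subtype.val '' S)
  rw [hμ1, Set.preimage_image_eq _ Subtype.val_injective] at h1
  refine h1.trans (le_of_eq ?_)
  rw [smul_apply, smul_eq_mul]
  congr 1
  have h2 : (volume : Measure unitInterval) S = (volume : Measure ℝ) (Subtype.val '' S) :=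
    comap_subtype_coe_apply measurableSet_Icc volume S
  rw [h2, Real.volume_eq_stieltjes_id, StieltjesFunction.measure]
  rfl

/-! ### Exit times -/

theorem exit_right (f : C(unitInterval, ℂ)) {t u : unitInterval} (htu : t ≤ u) {r : ℝ}
    (hr : 0 < r) (h : r < dist (f u) (f t)) :
    ∃ b, t ≤ b ∧ b ≤ u ∧ dist (f b) (f t) = r ∧
      ∀ v ∈ Set.Icc t b, f v ∈ Metric.closedBall (f t) r := by
  obtain ⟨A, hA⟩ : ∃ A : Set unitInterval, A = {v | t ≤ v ∧ v ≤ u ∧ r ≤ dist (f v) (f t)} :=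
    ⟨_, rfl⟩
  have hcl : IsClosed A := by
    rw [hA]
    refine (isClosed_le continuous_const continuous_id).inter
      ((isClosed_le continuous_id continuous_const).inter
        (isClosed_le continuous_const (f.continuous.dist continuous_const)))
  have hne : A.Nonempty := ⟨u, by rw [hA]; exact ⟨htu, le_rfl, h.le⟩⟩
  obtain ⟨b, hb1, hb2⟩ := hcl.isCompact.exists_isLeast hne
  rw [hA] at hb1
  have hlt : ∀ v, t ≤ v → v < b → dist (f v) (f t) < r := by
    intro v h1 h2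
    by_contra h3
    exact absurd (hb2 (by rw [hA]; exact ⟨h1, h2.le.trans hb1.2.1, not_lt.1 h3⟩)) (not_le.2 h2)
  have heq : dist (f b) (f t) = r := by
    refine le_antisymm ?_ hb1.2.2
    by_contra h3
    rw [not_le] at h3
    have h4 := intermediate_value_Icc hb1.1
      (f := fun v => dist (f v) (f t)) ((f.continuous.dist continuous_const).continuousOn)
    have h5 : r ∈ Set.Icc (dist (f t) (f t)) (dist (f b) (f t)) :=
      ⟨by rw [dist_self]; exact hr.le, h3.le⟩
    obtain ⟨v, hv, hv2⟩ := h4 h5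
    simp only at hv2
    rcases hv.2.eq_or_lt with h6 | h6
    · rw [h6] at hv2
      linarith
    · have := hlt v hv.1 h6
      linarith
  refine ⟨b, hb1.1, hb1.2.1, heq, fun v hv => ?_⟩
  rcases hv.2.eq_or_lt with h6 | h6
  · rw [Metric.mem_closedBall, h6, heq]
  · rw [Metric.mem_closedBall]
    exact (hlt v hv.1 h6).le

theorem exit_left (f : C(unitInterval, ℂ)) {t u : unitInterval} (htu : u ≤ t) {r : ℝ}
    (hr : 0 < r) (h : r < dist (f u) (f t)) :
    ∃ b, b ≤ t ∧ u ≤ b ∧ dist (f b) (f t) = r ∧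
      ∀ v ∈ Set.Icc b t, f v ∈ Metric.closedBall (f t) r := by
  obtain ⟨A, hA⟩ : ∃ A : Set unitInterval, A = {v | v ≤ t ∧ u ≤ v ∧ r ≤ dist (f v) (f t)} :=
    ⟨_, rfl⟩
  have hcl : IsClosed A := by
    rw [hA]
    refine (isClosed_le continuous_id continuous_const).inter
      ((isClosed_le continuous_const continuous_id).inter
        (isClosed_le continuous_const (f.continuous.dist continuous_const)))
  have hne : A.Nonempty := ⟨u, by rw [hA]; exact ⟨htu, le_rfl, h.le⟩⟩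
  obtain ⟨b, hb1, hb2⟩ := hcl.isCompact.exists_isGreatest hne
  rw [hA] at hb1
  have hlt : ∀ v, v ≤ t → b < v → dist (f v) (f t) < r := by
    intro v h1 h2
    by_contra h3
    exact absurd (hb2 (by rw [hA]; exact ⟨h1, hb1.2.1.trans h2.le, not_lt.1 h3⟩)) (not_le.2 h2)
  have heq : dist (f b) (f t) = r := by
    refine le_antisymm ?_ hb1.2.2
    by_contra h3
    rw [not_le] at h3
    have h4 := intermediate_value_Icc' hb1.1
      (f := fun v => dist (f v) (f t)) ((f.continuous.dist continuous_const).continuousOn)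
    have h5 : r ∈ Set.Icc (dist (f t) (f t)) (dist (f b) (f t)) :=
      ⟨by rw [dist_self]; exact hr.le, h3.le⟩
    obtain ⟨v, hv, hv2⟩ := h4 h5
    simp only at hv2
    rcases hv.1.eq_or_lt with h6 | h6
    · rw [← h6] at hv2
      linarith
    · have := hlt v hv.2 h6
      linarith
  refine ⟨b, hb1.1, hb1.2.1, heq, fun v hv => ?_⟩
  rcases hv.1.eq_or_lt with h6 | h6
  · rw [Metric.mem_closedBall, ← h6, heq]
  · rw [Metric.mem_closedBall]
    exact (hlt v hv.2 h6).le

/-- there are small times at which the curve has moved by more than `δ` -/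
def Q (f : C(unitInterval, ℂ)) (η δ : ℝ) (t : unitInterval) : Prop :=
  (∃ u, t ≤ u ∧ (u : ℝ) - t ≤ η ∧ δ < dist (f u) (f t)) ∨
    ∃ u, u ≤ t ∧ (t : ℝ) - u ≤ η ∧ δ < dist (f u) (f t)

theorem nonconst {f : C(unitInterval, ℂ)} {T c : ℝ} (hT : 0 < T) (hc : 0 < c) (h : LOF f T c)
    {s t : unitInterval} (hst : s < t) : ∃ u, s ≤ u ∧ u ≤ t ∧ f u ≠ f s := by
  by_contra hcon
  push Not at hcon
  have hst' : (s : ℝ) < t := hst
  have hpos : 0 < c * T * ((t : ℝ) - s) := by
    have : 0 < (t : ℝ) - s := by linarith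
    positivity
  obtain ⟨n, τ, h1, h2, h3, -, h5⟩ := h s t hst.le 1 one_pos (c * T * ((t : ℝ) - s) / 2)
    (by linarith)
  have h6 : ∀ i ≤ n, f (τ i) = f s := by
    intro i hi
    refine hcon _ ?_ ?_
    · rw [← h2]
      exact h1 (Nat.zero_le _)
    · rw [← h3]
      exact h1 hi
  have h7 : ∑ i ∈ Finset.range n, psi (dist (f (τ i)) (f (τ (i + 1)))) = 0 := by
    refine Finset.sum_eq_zero fun i hi => ?_
    rw [Finset.mem_range] at hi
    rw [h6 i hi.le, h6 (i + 1) hi, dist_self, psi_zero]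
  rw [h7] at h5
  linarith

theorem Q_ev {f : C(unitInterval, ℂ)} {T c : ℝ} (hT : 0 < T) (hc : 0 < c) (h : LOF f T c)
    {η : ℝ} (hη : 0 < η) : ∃ δ : ℝ, 0 < δ ∧ ∀ t, Q f η δ t := by
  have main : ∃ δ : ℝ, 0 < δ ∧ ∀ t ∈ (Set.univ : Set unitInterval), Q f η δ t := by
    refine isCompact_univ.induction_on (p := fun A => ∃ δ : ℝ, 0 < δ ∧ ∀ t ∈ A, Q f η δ t)
      ⟨1, one_pos, fun t ht => absurd ht (Set.notMem_empty _)⟩ ?_ ?_ ?_
    · rintro A B hAB ⟨δ, hδ, h1⟩
      exact ⟨δ, hδ, fun t ht => h1 t (hAB ht)⟩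
    · rintro A B ⟨δ, hδ, h1⟩ ⟨δ', hδ', h1'⟩
      refine ⟨min δ δ', lt_min hδ hδ', fun t ht => ?_⟩
      rcases ht with ht | ht
      · rcases h1 t ht with ⟨u, a1, a2, a3⟩ | ⟨u, a1, a2, a3⟩
        · exact Or.inl ⟨u, a1, a2, (min_le_left _ _).trans_lt a3⟩
        · exact Or.inr ⟨u, a1, a2, (min_le_left _ _).trans_lt a3⟩
      · rcases h1' t ht with ⟨u, a1, a2, a3⟩ | ⟨u, a1, a2, a3⟩
        · exact Or.inl ⟨u, a1, a2, (min_le_right _ _).trans_lt a3⟩
        · exact Or.inr ⟨u, a1, a2, (min_le_right _ _).trans_lt a3⟩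
    · intro x _
      rw [nhdsWithin_univ]
      rcases lt_or_ge (x : ℝ) 1 with hx | hx
      · -- to the right
        have hx0 := x.2.1
        obtain ⟨y, hy⟩ : ∃ y : unitInterval, (y : ℝ) = min ((x : ℝ) + η / 2) 1 :=
          ⟨⟨min ((x : ℝ) + η / 2) 1, le_min (by linarith) zero_le_one, min_le_right _ _⟩, rfl⟩
        have hxy : x < y := by
          show (x : ℝ) < y
          rw [hy]
          exact lt_min (by linarith) hx
        obtain ⟨u, hu1, hu2, hu3⟩ := nonconst hT hc h hxy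
        have hu4 : x < u := lt_of_le_of_ne hu1 fun e => hu3 (by rw [e])
        have hu5 : (u : ℝ) - x ≤ η / 2 := by
          have : (u : ℝ) ≤ y := hu2
          have h2 : (y : ℝ) ≤ x + η / 2 := by rw [hy]; exact min_le_left _ _
          linarith
        have hd : 0 < dist (f u) (f x) := dist_pos.2 hu3
        have e1 : ∀ᶠ t : unitInterval in 𝓝 x, t < u := gt_mem_nhds hu4
        have e2 : ∀ᶠ t : unitInterval in 𝓝 x, (u : ℝ) - t < η :=
          (continuous_const.sub continuous_subtype_val).continuousAt.eventually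
            (gt_mem_nhds (show (u : ℝ) - x < η by linarith))
        have e3 : ∀ᶠ t : unitInterval in 𝓝 x, dist (f u) (f x) / 2 < dist (f u) (f t) :=
          (continuous_const.dist f.continuous).continuousAt.eventually
            (lt_mem_nhds (show dist (f u) (f x) / 2 < dist (f u) (f x) by linarith))
        refine ⟨{t | t < u ∧ (u : ℝ) - t < η ∧ dist (f u) (f x) / 2 < dist (f u) (f t)},
          e1.and (e2.and e3), dist (f u) (f x) / 2, by linarith, fun t ht => ?_⟩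
        exact Or.inl ⟨u, ht.1.le, ht.2.1.le, ht.2.2⟩
      · -- to the left
        have hx1 := x.2.2
        obtain ⟨y, hy⟩ : ∃ y : unitInterval, (y : ℝ) = max ((x : ℝ) - η / 2) 0 :=
          ⟨⟨max ((x : ℝ) - η / 2) 0, le_max_right _ _, max_le (by linarith) zero_le_one⟩, rfl⟩
        have hxy : y < x := by
          show (y : ℝ) < x
          rw [hy]
          exact max_lt (by linarith) (by linarith)
        obtain ⟨u, hu1, hu2, hu3⟩ : ∃ u, y ≤ u ∧ u ≤ x ∧ f u ≠ f x := by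
          obtain ⟨u, hu1, hu2, hu3⟩ := nonconst hT hc h hxy
          by_cases e : f y = f x
          · exact ⟨u, hu1, hu2, by rwa [← e]⟩
          · exact ⟨y, le_rfl, hxy.le, e⟩
        have hu4 : u < x := lt_of_le_of_ne hu2 fun e => hu3 (by rw [e])
        have hu5 : (x : ℝ) - u ≤ η / 2 := by
          have : (y : ℝ) ≤ u := hu1
          have h2 : x - η / 2 ≤ (y : ℝ) := by rw [hy]; exact le_max_left _ _
          linarith
        have hd : 0 < dist (f u) (f x) := dist_pos.2 hu3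
        have e1 : ∀ᶠ t : unitInterval in 𝓝 x, u < t := lt_mem_nhds hu4
        have e2 : ∀ᶠ t : unitInterval in 𝓝 x, (t : ℝ) - u < η :=
          (continuous_subtype_val.sub continuous_const).continuousAt.eventually
            (gt_mem_nhds (show (x : ℝ) - u < η by linarith))
        have e3 : ∀ᶠ t : unitInterval in 𝓝 x, dist (f u) (f x) / 2 < dist (f u) (f t) :=
          (continuous_const.dist f.continuous).continuousAt.eventually
            (lt_mem_nhds (show dist (f u) (f x) / 2 < dist (f u) (f x) by linarith))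
        refine ⟨{t | u < t ∧ (t : ℝ) - u < η ∧ dist (f u) (f x) / 2 < dist (f u) (f t)},
          e1.and (e2.and e3), dist (f u) (f x) / 2, by linarith, fun t ht => ?_⟩
        exact Or.inr ⟨u, ht.1.le, ht.2.1.le, ht.2.2⟩
  obtain ⟨δ, hδ, h1⟩ := main
  exact ⟨δ, hδ, fun t => h1 t (Set.mem_univ _)⟩

/-- non-overlapping intervals in `[m, M]` -/
theorem sum_len (m : ℝ) (a b : ℕ → ℝ) : ∀ (n : ℕ) (M : ℝ), m ≤ M → (∀ i < n, m ≤ a i) →
    (∀ i < n, b i ≤ M) → (∀ i j, i < j → j < n → b i ≤ a j) →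
    ∑ i ∈ Finset.range n, (b i - a i) ≤ M - m := by
  intro n
  induction n with
  | zero =>
    intro M h _ _ _
    simpa using h
  | succ n ih =>
    intro M h h1 h2 h3
    rw [Finset.sum_range_succ]
    have := ih (a n) (h1 n (Nat.lt_succ_self n)) (fun i hi => h1 i (Nat.lt_succ_of_lt hi))
      (fun i hi => h3 i n hi (Nat.lt_succ_self n)) (fun i j hij hj => h3 i j hij (Nat.lt_succ_of_lt hj))
    have := h2 n (Nat.lt_succ_self n)
    linarith

theorem pre_Icc {f : C(unitInterval, ℂ)} {T C : ℝ} (hT : 0 < T) (hC : 0 < C)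
    (hU : UPF f T C) (hQ : ∀ η : ℝ, 0 < η → ∃ δ : ℝ, 0 < δ ∧ ∀ t, Q f η δ t)
    (s t : unitInterval) (hst : s ≤ t) :
    pre gps (f '' Set.Icc s t) ≤ ENNReal.ofReal (C * T) * ENNReal.ofReal ((t : ℝ) - s) := by
  have hst' : (s : ℝ) ≤ t := hst
  have hCT : 0 < C * T := by positivity
  rw [← ENNReal.ofReal_mul hCT.le]
  refine ENNReal.le_of_forall_pos_le_add fun ε hε _ => ?_
  have hε' : (0:ℝ) < ε := hε
  obtain ⟨η0, hη0, h0⟩ := hU (ε / 2) (by positivity)
  obtain ⟨η, hη⟩ : ∃ η : ℝ, η = min η0 (ε / 2 / (2 * (C * T))) := ⟨_, rfl⟩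
  have hηp : 0 < η := by rw [hη]; exact lt_min hη0 (by positivity)
  have hη1 : η ≤ η0 := by rw [hη]; exact min_le_left _ _
  have hη2 : C * T * (2 * η) ≤ ε / 2 := by
    have h1 : η ≤ ε / 2 / (2 * (C * T)) := by rw [hη]; exact min_le_right _ _
    rw [le_div_iff₀ (by positivity)] at h1
    linarith
  obtain ⟨δ, hδ, hQ'⟩ := hQ η hηp
  unfold pre
  refine iInf₂_le_of_le δ hδ ?_
  refine iSup_le fun n => iSup_le fun x => iSup_le fun r => iSup_le fun h => ?_
  have hex : ∀ i : Fin n, ∃ a b ti : unitInterval, a ≤ b ∧ (b : ℝ) - a ≤ η ∧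
      dist (f a) (f b) = r i ∧ (∀ v ∈ Set.Icc a b, f v ∈ Metric.closedBall (x i) (r i)) ∧
      a ≤ ti ∧ ti ≤ b ∧ s ≤ ti ∧ ti ≤ t := by
    intro i
    obtain ⟨⟨ti, hti, hxi⟩, hr0, hrδ⟩ := h.1 i
    rcases hQ' ti with ⟨u, a1, a2, a3⟩ | ⟨u, a1, a2, a3⟩
    · obtain ⟨b, b1, b2, b3, b4⟩ := exit_right f a1 hr0 (hrδ.trans a3)
      refine ⟨ti, b, ti, b1, ?_, by rw [dist_comm]; exact b3, ?_, le_rfl, b1, hti.1, hti.2⟩
      · have : (b : ℝ) ≤ u := b2
        linarith
      · rw [← hxi]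
        exact b4
    · obtain ⟨b, b1, b2, b3, b4⟩ := exit_left f a1 hr0 (hrδ.trans a3)
      refine ⟨b, ti, ti, b1, ?_, b3, ?_, b1, le_rfl, hti.1, hti.2⟩
      · have : (u : ℝ) ≤ b := b2
        linarith
      · rw [← hxi]
        exact b4
  choose a b ti p1 p2 p3 p4 p5 p6 p7 p8 using hex
  have hdis : ∀ i j, i ≠ j → b i ≤ a j ∨ b j ≤ a i := by
    intro i j hij
    by_contra hcon
    push Not at hcon
    have hd := h.2 i j hij
    rw [Set.disjoint_left] at hd
    rcases le_total (a i) (a j) with h1 | h1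
    · exact hd (p4 i (a j) ⟨h1, hcon.1.le⟩) (p4 j (a j) ⟨le_rfl, p1 j⟩)
    · exact hd (p4 i (a i) ⟨le_rfl, p1 i⟩) (p4 j (a i) ⟨h1, hcon.2.le⟩)
  -- sort
  obtain ⟨σ, hσ⟩ : ∃ σ : Equiv.Perm (Fin n), σ = Tuple.sort a := ⟨_, rfl⟩
  have hm : Monotone (a ∘ σ) := by rw [hσ]; exact Tuple.monotone_sort a
  have hord : ∀ i j : Fin n, i < j → b (σ i) ≤ a (σ j) := by
    intro i j hij
    have hne : σ i ≠ σ j := fun e => hij.ne (σ.injective e)
    rcases hdis _ _ hne with h1 | h1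
    · exact h1
    · exfalso
      have h4 : a (σ i) ≤ a (σ j) := hm hij.le
      have h6 : a (σ j) = b (σ j) := le_antisymm (p1 _) (h1.trans h4)
      have h7 := p3 (σ j)
      rw [h6, dist_self] at h7
      have := (h.1 (σ j)).2.1
      linarith
  obtain ⟨a', ha'⟩ : ∃ a' : ℕ → unitInterval,
    a' = fun i => if hi : i < n then a (σ ⟨i, hi⟩) else 0 := ⟨_, rfl⟩
  obtain ⟨b', hb'⟩ : ∃ b' : ℕ → unitInterval,
    b' = fun i => if hi : i < n then b (σ ⟨i, hi⟩) else 0 := ⟨_, rfl⟩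
  have ea : ∀ i (hi : i < n), a' i = a (σ ⟨i, hi⟩) := fun i hi => by
    rw [ha']; simp only; rw [dif_pos hi]
  have eb : ∀ i (hi : i < n), b' i = b (σ ⟨i, hi⟩) := fun i hi => by
    rw [hb']; simp only; rw [dif_pos hi]
  have h1 := h0 n a' b' (fun i hi => by
      rw [ea i hi, eb i hi]
      exact ⟨p1 _, (p2 _).trans hη1⟩)
    (fun i j hij hj => by
      rw [eb i (hij.trans hj), ea j hj]
      exact hord _ _ hij)
  have h2 : ∑ i ∈ Finset.range n, psi (dist (f (a' i)) (f (b' i))) = ∑ i, psi (r i) := by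
    rw [Finset.sum_range, ← Equiv.sum_comp σ (fun i => psi (r i))]
    refine Finset.sum_congr rfl fun i _ => ?_
    rw [ea i i.2, eb i i.2, p3]
  have h3 : ∑ i ∈ Finset.range n, ((b' i : ℝ) - a' i) ≤ (t + η) - (s - η) := by
    refine sum_len (s - η) (fun i => (a' i : ℝ)) (fun i => (b' i : ℝ)) n (t + η)
      (by linarith) (fun i hi => ?_) (fun i hi => ?_) (fun i j hij hj => ?_)
    · show (s : ℝ) - η ≤ a' i
      rw [ea i hi]
      have h4 : (s : ℝ) ≤ ti (σ ⟨i, hi⟩) := p7 _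
      have h5 : (ti (σ ⟨i, hi⟩) : ℝ) ≤ b (σ ⟨i, hi⟩) := p6 _
      have h6 := p2 (σ ⟨i, hi⟩)
      linarith
    · show (b' i : ℝ) ≤ t + η
      rw [eb i hi]
      have h4 : (ti (σ ⟨i, hi⟩) : ℝ) ≤ t := p8 _
      have h5 : (a (σ ⟨i, hi⟩) : ℝ) ≤ ti (σ ⟨i, hi⟩) := p5 _
      have h6 := p2 (σ ⟨i, hi⟩)
      linarith
    · show (b' i : ℝ) ≤ a' j
      rw [eb i (hij.trans hj), ea j hj]
      exact hord _ _ hij
  have h4 : ∑ i, psi (r i) ≤ C * T * ((t : ℝ) - s) + ε := by
    rw [← h2]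
    refine h1.trans ?_
    have := mul_le_mul_of_nonneg_left h3 hCT.le
    nlinarith
  have h5 : ∑ i, gps (r i) = ENNReal.ofReal (∑ i, psi (r i)) := by
    rw [ENNReal.ofReal_sum_of_nonneg fun i _ => psi_nonneg (h.1 i).2.1.le]
    rfl
  rw [h5]
  refine (ENNReal.ofReal_le_ofReal h4).trans (le_of_eq ?_)
  rw [ENNReal.ofReal_add (mul_nonneg hCT.le (by linarith)) hε'.le, ENNReal.ofReal_coe_nnreal]

/-- JOB UP. -/
theorem t_UP : S_UP := by
  intro f T C c hT hC hc hU hL S
  exact up_red gps f (ENNReal.ofReal (C * T)) (by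
      rw [Ne, ENNReal.ofReal_eq_zero, not_le]
      positivity) ENNReal.ofReal_ne_top
    (pre_Icc hT hC hU fun η hη => Q_ev hT hc hL hη) S

end Pool.Agent.J4H16.PK
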